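import Pool.Agent.Q161.GapWilf2
import Pool.Agent.Q161.PermList

/-!
MP_1ac54c_co, Q1: the distant patterns obtained from 1234, 1243, 2143 by one square after the `j`-th
letter are Wilf-equivalent.
-/

set_option autoImplicit false

namespace Pool.Agent.Results.MP_1ac54c_co.GappedWilf

open Finset Q161.GapWilf Q161.RunSort Q161.PermList

/-- `π` contains the distant pattern obtained from `q = q 0, q 1, q 2, q 3` by placing a square
between the letters `q j` and `q (j + 1)`: there is an occurrence of `q` at places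
`i 0 < i 1 < i 2 < i 3` with `i (j + 1) ≥ i j + 2` -/
def Contains {n : ℕ} (q : Fin 4 → ℕ) (j : Fin 3) (π : Equiv.Perm (Fin n)) : Prop :=
  ∃ i : Fin 4 → Fin n, StrictMono i ∧ (∀ s t, π (i s) < π (i t) ↔ q s < q t) ∧
    (i j.castSucc : ℕ) + 2 ≤ i j.succ

open Classical in
/-- the number of permutations of `n` letters that avoid the distant pattern -/
noncomputable def av (n : ℕ) (q : Fin 4 → ℕ) (j : Fin 3) : ℕ :=
  (univ.filter (fun π : Equiv.Perm (Fin n) => ¬ Contains q j π)).card

/-! ### words -/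

/-- occurrence in a word -/
def Occ (a b : Bool) (g1 g2 g3 : ℕ) (w : List ℕ) : Prop :=
  ∃ i1 i2 i3 i4, i1 + g1 < i2 ∧ i2 + g2 < i3 ∧ i3 + g3 < i4 ∧ i4 < w.length ∧
    (if a then w.getD i1 0 < w.getD i2 0 else w.getD i2 0 < w.getD i1 0) ∧
    (if b then w.getD i3 0 < w.getD i4 0 else w.getD i4 0 < w.getD i3 0) ∧
    w.getD i1 0 < w.getD i3 0 ∧ w.getD i1 0 < w.getD i4 0 ∧
    w.getD i2 0 < w.getD i3 0 ∧ w.getD i2 0 < w.getD i4 0

theorem mem_drop_iff {Q : List ℕ} {g d : ℕ} :
    d ∈ Q.drop g ↔ ∃ y, g ≤ y ∧ y < Q.length ∧ Q.getD y 0 = d := by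
  constructor
  · intro h
    obtain ⟨k, hk, he⟩ := List.mem_iff_getElem.1 h
    rw [List.length_drop] at hk
    refine ⟨g + k, by omega, by omega, ?_⟩
    rw [List.getElem_drop] at he
    rw [List.getD_eq_getElem _ _ (by omega)]
    exact he
  · rintro ⟨y, h1, h2, h3⟩
    rw [List.mem_iff_getElem]
    refine ⟨y - g, by rw [List.length_drop]; omega, ?_⟩
    rw [List.getElem_drop, ← h3, List.getD_eq_getElem _ _ h2]
    congr 1
    omega

theorem G12_iff (a : Bool) (g1 g2 g3 : ℕ) (Q : List ℕ) : ∀ P, G12 a g1 g2 g3 P Q ↔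
    ¬ ∃ x y, x + g3 < y ∧ y < Q.length ∧ In a g1 g2 (P ++ Q.take x) (Q.getD x 0) ∧
      Q.getD x 0 < Q.getD y 0 := by
  induction Q with
  | nil =>
    intro P
    constructor
    · rintro _ ⟨x, y, _, h, _⟩
      simp at h
    · exact fun _ => trivial
  | cons c Q ih =>
    intro P
    show (¬ (In a g1 g2 P c ∧ ∃ d ∈ Q.drop g3, c < d) ∧ G12 a g1 g2 g3 (P ++ [c]) Q) ↔ _
    rw [ih (P ++ [c])]
    constructor
    · rintro ⟨h1, h2⟩ ⟨x, y, h3, h4, h5, h6⟩
      obtain ⟨y, rfl⟩ : ∃ y', y = y' + 1 := ⟨y - 1, by omega⟩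
      rw [List.length_cons] at h4
      cases x with
      | zero =>
        apply h1
        refine ⟨by simpa using h5, _, mem_drop_iff.2 ⟨y, by omega, by omega, rfl⟩, h6⟩
      | succ x =>
        apply h2
        refine ⟨x, y, by omega, by omega, ?_, h6⟩
        rw [List.append_assoc]
        exact h5
    · intro h
      refine ⟨?_, ?_⟩
      · rintro ⟨h1, d, hd, hcd⟩
        obtain ⟨y, hy1, hy2, hy3⟩ := mem_drop_iff.1 hd
        apply h
        refine ⟨0, y + 1, by omega, by rw [List.length_cons]; omega, by simpa using h1, ?_⟩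
        show c < Q.getD y 0
        rw [hy3]; exact hcd
      · rintro ⟨x, y, h3, h4, h5, h6⟩
        apply h
        refine ⟨x + 1, y + 1, by omega, by rw [List.length_cons]; omega, ?_, h6⟩
        rw [List.append_assoc] at h5
        exact h5

theorem G21_iff (a : Bool) (g1 g2 g3 : ℕ) (Q : List ℕ) : ∀ P, G21 a g1 g2 g3 P Q ↔
    ¬ ∃ x y, x + g3 < y ∧ y < Q.length ∧ Q.getD y 0 < Q.getD x 0 ∧
      In a g1 g2 (P ++ Q.take x) (Q.getD y 0) := by
  induction Q with
  | nil =>
    intro P
    constructor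
    · rintro _ ⟨x, y, _, h, _⟩
      simp at h
    · exact fun _ => trivial
  | cons c Q ih =>
    intro P
    show (¬ (∃ d ∈ Q.drop g3, d < c ∧ In a g1 g2 P d) ∧ G21 a g1 g2 g3 (P ++ [c]) Q) ↔ _
    rw [ih (P ++ [c])]
    constructor
    · rintro ⟨h1, h2⟩ ⟨x, y, h3, h4, h5, h6⟩
      obtain ⟨y, rfl⟩ : ∃ y', y = y' + 1 := ⟨y - 1, by omega⟩
      rw [List.length_cons] at h4
      cases x with
      | zero =>
        apply h1
        refine ⟨_, mem_drop_iff.2 ⟨y, by omega, by omega, rfl⟩, h5, by simpa using h6⟩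
      | succ x =>
        apply h2
        refine ⟨x, y, by omega, by omega, h5, ?_⟩
        rw [List.append_assoc]
        exact h6
    · intro h
      refine ⟨?_, ?_⟩
      · rintro ⟨d, hd, hcd, h1⟩
        obtain ⟨y, hy1, hy2, hy3⟩ := mem_drop_iff.1 hd
        apply h
        refine ⟨0, y + 1, by omega, by rw [List.length_cons]; omega, ?_, ?_⟩
        · show Q.getD y 0 < c
          rw [hy3]; exact hcd
        · have : In a g1 g2 P (Q.getD y 0) := by rw [hy3]; exact h1
          simpa using this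
      · rintro ⟨x, y, h3, h4, h5, h6⟩
        apply h
        refine ⟨x + 1, y + 1, by omega, by rw [List.length_cons]; omega, h5, ?_⟩
        rw [List.append_assoc] at h6
        exact h6

theorem In_take {a : Bool} {g1 g2 : ℕ} {w : List ℕ} {x v : ℕ} (hx : x ≤ w.length) :
    In a g1 g2 (w.take x) v ↔ ∃ i j, i + g1 < j ∧ j + g2 < x ∧
      (if a then w.getD i 0 < w.getD j 0 else w.getD j 0 < w.getD i 0) ∧
      w.getD i 0 < v ∧ w.getD j 0 < v := by
  unfold In
  rw [List.length_take, min_eq_left hx]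
  constructor
  · rintro ⟨i, j, h1, h2, h3, h4, h5⟩
    rw [getD_take (show i < x by omega)] at h3 h4
    rw [getD_take (show j < x by omega)] at h3 h5
    exact ⟨i, j, h1, h2, h3, h4, h5⟩
  · rintro ⟨i, j, h1, h2, h3, h4, h5⟩
    refine ⟨i, j, h1, h2, ?_, ?_, ?_⟩
    · rw [getD_take (show i < x by omega), getD_take (show j < x by omega)]; exact h3
    · rw [getD_take (show i < x by omega)]; exact h4
    · rw [getD_take (show j < x by omega)]; exact h5

theorem G12_occ (a : Bool) (g1 g2 g3 : ℕ) (w : List ℕ) :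
    G12 a g1 g2 g3 [] w ↔ ¬ Occ a true g1 g2 g3 w := by
  rw [G12_iff, not_iff_not]
  constructor
  · rintro ⟨x, y, h1, h2, h3, h4⟩
    rw [List.nil_append, In_take (by omega)] at h3
    obtain ⟨i, j, h5, h6, h7, h8, h9⟩ := h3
    exact ⟨i, j, x, y, h5, h6, h1, h2, h7, by simpa using h4, h8, by omega, h9, by omega⟩
  · rintro ⟨i, j, x, y, h5, h6, h1, h2, h7, h4, h8, h8', h9, h9'⟩
    refine ⟨x, y, h1, h2, ?_, by simpa using h4⟩
    rw [List.nil_append, In_take (by omega)]
    exact ⟨i, j, h5, h6, h7, h8, h9⟩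

theorem G21_occ (a : Bool) (g1 g2 g3 : ℕ) (w : List ℕ) :
    G21 a g1 g2 g3 [] w ↔ ¬ Occ a false g1 g2 g3 w := by
  rw [G21_iff, not_iff_not]
  constructor
  · rintro ⟨x, y, h1, h2, h4, h3⟩
    rw [List.nil_append, In_take (by omega)] at h3
    obtain ⟨i, j, h5, h6, h7, h8, h9⟩ := h3
    exact ⟨i, j, x, y, h5, h6, h1, h2, h7, by simpa using h4, by omega, h8, by omega, h9⟩
  · rintro ⟨i, j, x, y, h5, h6, h1, h2, h7, h4, h8, h8', h9, h9'⟩
    refine ⟨x, y, h1, h2, by simpa using h4, ?_⟩
    rw [List.nil_append, In_take (by omega)]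
    exact ⟨i, j, h5, h6, h7, h8', h9'⟩

/-! ### permutations -/

/-- the pattern `α ⊕ β`, `α = 12` or `21`, `β = 12` or `21` -/
def pat (a b : Bool) : Fin 4 → ℕ :=
  ![if a then 1 else 2, if a then 2 else 1, if b then 3 else 4, if b then 4 else 3]

/-- the gaps -/
def gap (j : Fin 3) (k : Fin 3) : ℕ := if j = k then 1 else 0

theorem toL_getD {n : ℕ} (π : Equiv.Perm (Fin n)) (i : Fin n) : (toL π).getD i 0 = π i := by
  unfold toL
  rw [List.getD_eq_getElem _ _ (by simp), List.getElem_ofFn]

theorem toL_length {n : ℕ} (π : Equiv.Perm (Fin n)) : (toL π).length = n := by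
  unfold toL; simp

theorem contains_iff {n : ℕ} (a b : Bool) (j : Fin 3) (π : Equiv.Perm (Fin n)) :
    Contains (pat a b) j π ↔ Occ a b (gap j 0) (gap j 1) (gap j 2) (toL π) := by
  constructor
  · rintro ⟨i, h1, h2, h3⟩
    have m01 : i 0 < i 1 := h1 (by decide)
    have m12 : i 1 < i 2 := h1 (by decide)
    have m23 : i 2 < i 3 := h1 (by decide)
    rw [Fin.lt_def] at m01 m12 m23
    refine ⟨i 0, i 1, i 2, i 3, ?_, ?_, ?_, ?_, ?_, ?_, ?_, ?_, ?_, ?_⟩
    · fin_cases j
      · show (i 0 : ℕ) + 1 < i 1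
        have : (i 0 : ℕ) + 2 ≤ i 1 := h3
        omega
      · exact m01
      · exact m01
    · fin_cases j
      · exact m12
      · show (i 1 : ℕ) + 1 < i 2
        have : (i 1 : ℕ) + 2 ≤ i 2 := h3
        omega
      · exact m12
    · fin_cases j
      · exact m23
      · exact m23
      · show (i 2 : ℕ) + 1 < i 3
        have : (i 2 : ℕ) + 2 ≤ i 3 := h3
        omega
    · rw [toL_length]; exact (i 3).2
    · rw [toL_getD, toL_getD]
      cases a
      · have := (h2 1 0).2 (by simp [pat])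
        simpa using this
      · have := (h2 0 1).2 (by simp [pat])
        simpa using this
    · rw [toL_getD, toL_getD]
      cases b
      · have := (h2 3 2).2 (by simp [pat])
        simpa using this
      · have := (h2 2 3).2 (by simp [pat])
        simpa using this
    all_goals rw [toL_getD, toL_getD, ← Fin.lt_def, h2]; cases a <;> cases b <;> simp [pat]
  · rintro ⟨i1, i2, i3, i4, h1, h2, h3, h4, h5, h6, h7, h8, h9, h10⟩
    rw [toL_length] at h4
    have e1 := toL_getD π ⟨i1, by omega⟩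
    have e2 := toL_getD π ⟨i2, by omega⟩
    have e3 := toL_getD π ⟨i3, by omega⟩
    have e4 := toL_getD π ⟨i4, by omega⟩
    simp only at e1 e2 e3 e4
    rw [e1, e2] at h5
    rw [e3, e4] at h6
    rw [e1, e3] at h7
    rw [e1, e4] at h8
    rw [e2, e3] at h9
    rw [e2, e4] at h10
    refine ⟨![⟨i1, by omega⟩, ⟨i2, by omega⟩, ⟨i3, by omega⟩, ⟨i4, by omega⟩], ?_, ?_, ?_⟩
    · rw [Fin.strictMono_iff_lt_succ]
      intro k
      fin_cases k
      · show (⟨i1, _⟩ : Fin n) < ⟨i2, _⟩
        rw [Fin.lt_def]; show i1 < i2; omega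
      · show (⟨i2, _⟩ : Fin n) < ⟨i3, _⟩
        rw [Fin.lt_def]; show i2 < i3; omega
      · show (⟨i3, _⟩ : Fin n) < ⟨i4, _⟩
        rw [Fin.lt_def]; show i3 < i4; omega
    · have key : ∀ x : Fin 4 → Fin n,
          (if a then (π (x 0) : ℕ) < π (x 1) else (π (x 1) : ℕ) < π (x 0)) →
          (if b then (π (x 2) : ℕ) < π (x 3) else (π (x 3) : ℕ) < π (x 2)) →
          (π (x 0) : ℕ) < π (x 2) → (π (x 0) : ℕ) < π (x 3) →
          (π (x 1) : ℕ) < π (x 2) → (π (x 1) : ℕ) < π (x 3) →
          ∀ s t, π (x s) < π (x t) ↔ pat a b s < pat a b t := by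
        intro x k1 k2 k3 k4 k5 k6 s t
        rw [Fin.lt_def]
        cases a <;> cases b <;> simp only [Bool.false_eq_true, if_true, if_false] at k1 k2 <;>
          fin_cases s <;> fin_cases t <;> simp only [pat, Fin.zero_eta, Fin.mk_one,
            Fin.reduceFinMk, Fin.isValue, Matrix.cons_val, Bool.false_eq_true, if_true,
            if_false] <;> omega
      exact key _ h5 h6 h7 h8 h9 h10
    · fin_cases j
      · show i1 + 2 ≤ i2
        have : i1 + 1 < i2 := h1
        omega
      · show i2 + 2 ≤ i3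
        have : i2 + 1 < i3 := h2
        omega
      · show i3 + 2 ≤ i4
        have : i3 + 1 < i4 := h3
        omega

theorem words_range (n : ℕ) (w : List ℕ) : w ∈ words (range n) ↔ w.Perm (List.range n) := by
  rw [mem_words]
  constructor
  · rintro ⟨h1, h2⟩
    rw [List.perm_ext_iff_of_nodup h1 List.nodup_range]
    intro x
    rw [← List.mem_toFinset, h2, mem_range, List.mem_range]
  · intro h
    refine ⟨h.nodup_iff.2 List.nodup_range, ?_⟩
    ext x
    rw [List.mem_toFinset, h.mem_iff, mem_range, List.mem_range]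

open Classical in
theorem av_eq (n : ℕ) (a b : Bool) (j : Fin 3) : av n (pat a b) j =
    ∑ w ∈ words (range n), if ¬ Occ a b (gap j 0) (gap j 1) (gap j 2) w then 1 else 0 := by
  unfold av
  rw [card_filter]
  apply sum_bij (fun (π : Equiv.Perm (Fin n)) _ => toL π)
  · intro π _
    rw [words_range]; exact toL_perm π
  · intro π _ σ _ h
    exact toL_injective h
  · intro w hw
    rw [words_range] at hw
    obtain ⟨σ, h⟩ := exists_toL hw
    exact ⟨σ, mem_univ _, h⟩
  · intro π _
    rw [contains_iff]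

/-- exchanging the second part of the pattern -/
theorem swap_second (n : ℕ) (a : Bool) (j : Fin 3) :
    av n (pat a true) j = av n (pat a false) j := by
  classical
  rw [av_eq, av_eq]
  have h1 : ∑ w ∈ words (range n), (if ¬ Occ a true (gap j 0) (gap j 1) (gap j 2) w then 1 else 0) =
      N12 a (gap j 0) (gap j 1) (gap j 2) [] (range n) := by
    unfold N12
    refine sum_congr rfl (fun w _ => ?_)
    simp only [G12_occ]
  have h2 : ∑ w ∈ words (range n), (if ¬ Occ a false (gap j 0) (gap j 1) (gap j 2) w then 1 else 0) =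
      N21 a (gap j 0) (gap j 1) (gap j 2) [] (range n) := by
    unfold N21
    refine sum_congr rfl (fun w _ => ?_)
    simp only [G21_occ]
  have hrel : ∀ g1 g2, Rel a g1 g2 [] [] := fun g1 g2 => ⟨rfl, fun i hi => by simp at hi⟩
  rw [h1, h2]
  fin_cases j
  · exact coupling_zero n [] [] (range n) (range n) (by simp) (by simp) (hrel _ _)
      (fun _ _ => Iff.rfl)
  · exact coupling_zero n [] [] (range n) (range n) (by simp) (by simp) (hrel _ _)
      (fun _ _ => Iff.rfl)
  · exact coupling_one n [] [] (range n) (range n) (by simp) (by simp) (hrel _ _)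
      (fun _ _ => Iff.rfl)

/-- reverse complement -/
def rc {n : ℕ} (π : Equiv.Perm (Fin n)) : Equiv.Perm (Fin n) :=
  (Fin.revPerm.trans π).trans Fin.revPerm

theorem rc_apply {n : ℕ} (π : Equiv.Perm (Fin n)) (i : Fin n) : rc π i = Fin.rev (π (Fin.rev i)) :=
  rfl

theorem rc_rc {n : ℕ} (π : Equiv.Perm (Fin n)) : rc (rc π) = π := by
  ext i
  rw [rc_apply, rc_apply, Fin.rev_rev, Fin.rev_rev]

theorem pat_rev (a b : Bool) (s t : Fin 4) :
    pat b a s < pat b a t ↔ pat a b (Fin.rev t) < pat a b (Fin.rev s) := by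
  revert a b s t
  decide

theorem contains_rc {n : ℕ} (a b : Bool) (j : Fin 3) (π : Equiv.Perm (Fin n))
    (h : Contains (pat a b) j π) : Contains (pat b a) (Fin.rev j) (rc π) := by
  obtain ⟨i, h1, h2, h3⟩ := h
  refine ⟨fun s => Fin.rev (i (Fin.rev s)), ?_, ?_, ?_⟩
  · intro s t hst
    rw [Fin.rev_lt_rev]
    exact h1 (Fin.rev_lt_rev.2 hst)
  · intro s t
    rw [rc_apply, rc_apply, Fin.rev_rev, Fin.rev_rev, Fin.rev_lt_rev, h2, pat_rev,
      Fin.rev_rev, Fin.rev_rev]
  · have e1 : Fin.rev (Fin.rev j).castSucc = j.succ := by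
      rw [Fin.rev_castSucc, Fin.rev_rev]
    have e2 : Fin.rev (Fin.rev j).succ = j.castSucc := by
      rw [Fin.rev_succ, Fin.rev_rev]
    simp only
    rw [e1, e2, Fin.val_rev, Fin.val_rev]
    have := (i j.castSucc).2
    have := (i j.succ).2
    omega

theorem av_rc (n : ℕ) (a b : Bool) (j : Fin 3) :
    av n (pat a b) j = av n (pat b a) (Fin.rev j) := by
  classical
  unfold av
  apply card_bij (fun (π : Equiv.Perm (Fin n)) _ => rc π)
  · intro π hπ
    rw [mem_filter] at hπ ⊢
    refine ⟨mem_univ _, fun h => hπ.2 ?_⟩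
    have := contains_rc b a (Fin.rev j) (rc π) h
    rwa [rc_rc, Fin.rev_rev] at this
  · intro π _ σ _ h
    rw [← rc_rc π, h, rc_rc]
  · intro π hπ
    rw [mem_filter] at hπ
    refine ⟨rc π, ?_, rc_rc π⟩
    rw [mem_filter]
    refine ⟨mem_univ _, fun h => hπ.2 ?_⟩
    have := contains_rc a b j (rc π) h
    rwa [rc_rc] at this

/-- For each `j`, the three distant patterns obtained from 1234, 1243, 2143 by one square after the
`j`-th letter (`j = 0, 1, 2` stands for the first, second, third letter) are avoided by the same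
number of permutations of every length `n`. -/
theorem result (n : ℕ) (j : Fin 3) :
    av n ![1, 2, 3, 4] j = av n ![1, 2, 4, 3] j ∧ av n ![1, 2, 4, 3] j = av n ![2, 1, 4, 3] j ∧
      av n ![1, 2, 3, 4] j = av n ![2, 1, 4, 3] j := by
  have e1 : (![1, 2, 3, 4] : Fin 4 → ℕ) = pat true true := by simp [pat]
  have e2 : (![1, 2, 4, 3] : Fin 4 → ℕ) = pat true false := by simp [pat]
  have e3 : (![2, 1, 4, 3] : Fin 4 → ℕ) = pat false false := by simp [pat]
  rw [e1, e2, e3]
  have h1 := swap_second n true j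
  have h2 : av n (pat true false) j = av n (pat false false) j := by
    rw [av_rc n true false j, swap_second n false (Fin.rev j), av_rc n false false (Fin.rev j),
      Fin.rev_rev]
  exact ⟨h1, h2, h1.trans h2⟩

end Pool.Agent.Results.MP_1ac54c_co.GappedWilf
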